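import Pool.Agent.W203.WS.Stm2

set_option autoImplicit false

/-!
Part LOW of project WT (problem MP_efcac8_nt): `k` summands never suffice.
-/

namespace Pool.Agent.W768.WT

open Finset

theorem pow_le_floor (k m : ℕ) (t : ℝ) (ht : 0 ≤ t) : ((m : ℤ) ^ k) ≤ ⌊((m : ℝ) + t) ^ k⌋ := by
  rw [Int.le_floor]
  push_cast
  exact pow_le_pow_left₀ (Nat.cast_nonneg m) (by linarith) k

theorem exists_M (k L : ℕ) (hk : 1 ≤ k) (hL : 1 ≤ L) :
    ∃ M : ℕ, L ≤ M ∧ 1 ≤ M ∧ M ^ k ≤ 2 * (M - L) ^ k := by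
  refine ⟨2 * k * L, by nlinarith, by nlinarith, ?_⟩
  have hLM : L ≤ 2 * k * L := by nlinarith
  have hkr : (1 : ℝ) ≤ k := by exact_mod_cast hk
  have hLr : (1 : ℝ) ≤ L := by exact_mod_cast hL
  have hB := one_add_mul_le_pow (a := -(1 / (2 * (k : ℝ)))) (by
    have : 1 / (2 * (k : ℝ)) ≤ 1 := by
      rw [div_le_one (by linarith)]
      linarith
    linarith) k
  have e1 : 1 + (k : ℝ) * -(1 / (2 * (k : ℝ))) = 1 / 2 := by
    field_simp
    ring
  rw [e1] at hB
  have h2 : ((2 * k * L : ℕ) : ℝ) ^ k ≤ 2 * ((2 * k * L - L : ℕ) : ℝ) ^ k := by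
    rw [Nat.cast_sub hLM]
    push_cast
    have e2 : (2 * (k : ℝ) * L - L) = (2 * k * L) * (1 + -(1 / (2 * (k : ℝ)))) := by
      field_simp
      ring
    have h3 : 0 ≤ (2 * (k : ℝ) * L) ^ k := by positivity
    calc (2 * (k : ℝ) * L) ^ k = 2 * ((2 * (k : ℝ) * L) ^ k * (1 / 2)) := by ring
      _ ≤ 2 * ((2 * (k : ℝ) * L) ^ k * (1 + -(1 / (2 * (k : ℝ)))) ^ k) := by gcongr
      _ = 2 * (2 * (k : ℝ) * L - L) ^ k := by rw [e2, ← mul_pow]
  exact_mod_cast h2

theorem core (k s : ℕ) (hk : 2 ≤ k) (hs : s ≤ k) (t : Fin s → ℝ) (ht : ∀ i, 0 ≤ t i) (N0 : ℕ) :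
    ∃ N : ℕ, N0 ≤ N ∧ ∀ m : Fin s → ℕ, ∑ i, ⌊((m i : ℝ) + t i) ^ k⌋ ≠ (N : ℤ) := by
  by_contra hcon
  push Not at hcon
  choose! m hm using hcon
  have hsum : ∀ N, N0 ≤ N → ∑ i, (m N i) ^ k ≤ N := by
    intro N hN
    have h1 : ∑ i, ((m N i : ℤ)) ^ k ≤ ∑ i, ⌊((m N i : ℝ) + t i) ^ k⌋ :=
      Finset.sum_le_sum fun i _ => pow_le_floor k (m N i) (t i) (ht i)
    rw [hm N hN] at h1
    exact_mod_cast h1
  have hinj : ∀ N, N0 ≤ N → ∀ N', N0 ≤ N' → m N = m N' → N = N' := by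
    intro N hN N' hN' h
    have h1 := hm N hN
    rw [h, hm N' hN'] at h1
    exact_mod_cast h1.symm
  have hlt : ∀ M N, N0 ≤ N → N < M ^ k → ∀ i, m N i < M := by
    intro M N hN hNM i
    have h1 : (m N i) ^ k ≤ ∑ i, (m N i) ^ k :=
      Finset.single_le_sum (f := fun i => (m N i) ^ k) (fun _ _ => Nat.zero_le _) (Finset.mem_univ i)
    have h2 : (m N i) ^ k < M ^ k := by
      have := hsum N hN
      omega
    exact lt_of_pow_lt_pow_left₀ k (Nat.zero_le _) h2
  -- the set of the representations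
  have hT : ∀ M : ℕ, ((Finset.Ico N0 (M ^ k)).image m) ⊆
      Fintype.piFinset (fun _ : Fin s => Finset.range M) := by
    intro M x hx
    rw [Finset.mem_image] at hx
    obtain ⟨N, hN, rfl⟩ := hx
    rw [Finset.mem_Ico] at hN
    rw [Fintype.mem_piFinset]
    intro i
    rw [Finset.mem_range]
    exact hlt M N hN.1 hN.2 i
  have hTc : ∀ M : ℕ, ((Finset.Ico N0 (M ^ k)).image m).card = M ^ k - N0 := by
    intro M
    rw [Finset.card_image_of_injOn, Nat.card_Ico]
    intro N hN N' hN' h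
    rw [Finset.coe_Ico, Set.mem_Ico] at hN hN'
    exact hinj N hN.1 N' hN'.1 h
  rcases Nat.lt_or_ge s k with hsk | hsk
  · have h1 := Finset.card_le_card (hT (N0 + 2))
    rw [hTc, Fintype.card_piFinset_const, Finset.card_range] at h1
    have h2 : (N0 + 2) ^ s ≤ (N0 + 2) ^ (k - 1) := Nat.pow_le_pow_right (by omega) (by omega)
    have h3 : (N0 + 2) ^ k = (N0 + 2) * (N0 + 2) ^ (k - 1) := by
      rw [← pow_succ']
      congr 1
      omega
    have h4 : 1 ≤ (N0 + 2) ^ (k - 1) := Nat.one_le_pow _ _ (by omega)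
    rw [h3] at h1
    have h5 : (N0 + 2) * (N0 + 2) ^ (k - 1) ≤ (N0 + 2) ^ (k - 1) + N0 := by omega
    nlinarith
  · have hsk' : s = k := le_antisymm hs hsk
    subst hsk'
    obtain ⟨M, hLM, hM1, hM⟩ := exists_M s (N0 + 1) (by omega) (by omega)
    let i0 : Fin s := ⟨0, by omega⟩
    let i1 : Fin s := ⟨1, by omega⟩
    have hne : i0 ≠ i1 := by
      intro h
      have := congrArg Fin.val h
      simp [i0, i1] at this
    let f : ℕ → Fin s → ℕ := fun a => Function.update (Function.update (fun _ => 0) i0 a) i1 (M - 1)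
    have hf0 : ∀ a, f a i0 = a := by
      intro a
      simp only [f]
      rw [Function.update_of_ne hne, Function.update_self]
    have hf1 : ∀ a, f a i1 = M - 1 := by
      intro a
      simp only [f]
      rw [Function.update_self]
    have hfi : Function.Injective f := by
      intro a b hab
      have := congrFun hab i0
      rwa [hf0, hf0] at this
    set E := (Finset.Ico (M - (N0 + 1)) M).image f with hE
    have hEc : E.card = N0 + 1 := by
      rw [hE, Finset.card_image_of_injective _ hfi, Nat.card_Ico]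
      omega
    have hEs : E ⊆ Fintype.piFinset (fun _ : Fin s => Finset.range M) := by
      intro x hx
      rw [hE, Finset.mem_image] at hx
      obtain ⟨a, ha, rfl⟩ := hx
      rw [Finset.mem_Ico] at ha
      rw [Fintype.mem_piFinset]
      intro i
      rw [Finset.mem_range]
      simp only [f]
      rw [Function.update_apply, Function.update_apply]
      split_ifs <;> omega
    have hdis : Disjoint ((Finset.Ico N0 (M ^ s)).image m) E := by
      rw [Finset.disjoint_left]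
      intro x hx hx'
      rw [Finset.mem_image] at hx
      obtain ⟨N, hN, rfl⟩ := hx
      rw [Finset.mem_Ico] at hN
      rw [hE, Finset.mem_image] at hx'
      obtain ⟨a, ha, hae⟩ := hx'
      rw [Finset.mem_Ico] at ha
      have h1 := hsum N hN.1
      rw [← hae] at h1
      have h2 : (f a i0) ^ s + (f a i1) ^ s ≤ ∑ i, (f a i) ^ s := by
        have h3 : ∑ i ∈ ({i0, i1} : Finset (Fin s)), (f a i) ^ s ≤ ∑ i, (f a i) ^ s :=
          Finset.sum_le_sum_of_subset (Finset.subset_univ _)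
        rwa [Finset.sum_pair hne] at h3
      rw [hf0, hf1] at h2
      have h4 : (M - (N0 + 1)) ^ s ≤ a ^ s := Nat.pow_le_pow_left ha.1 s
      have h5 : (M - (N0 + 1)) ^ s ≤ (M - 1) ^ s := Nat.pow_le_pow_left (by omega) s
      omega
    have hU := Finset.card_le_card (Finset.union_subset (hT M) hEs)
    rw [Finset.card_union_of_disjoint hdis, hTc, hEc, Fintype.card_piFinset_const,
      Finset.card_range] at hU
    omega

theorem core_int (k s : ℕ) (hk : 2 ≤ k) (hs : s ≤ k) (θ : Fin s → ℝ) (N0 : ℕ) :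
    ∃ N : ℕ, N0 ≤ N ∧ ∀ x : Fin s → ℤ, (∀ i, 0 ≤ (x i : ℝ) + θ i) →
      ∑ i, ⌊((x i : ℝ) + θ i) ^ k⌋ ≠ (N : ℤ) := by
  obtain ⟨N, hN, h⟩ := core k s hk hs (fun i => Int.fract (θ i)) (fun i => Int.fract_nonneg _) N0
  refine ⟨N, hN, ?_⟩
  intro x hx
  have h0 : ∀ i, 0 ≤ x i + ⌊θ i⌋ := by
    intro i
    have h1 : ⌊(x i : ℝ) + θ i⌋ = x i + ⌊θ i⌋ := Int.floor_intCast_add _ _
    rw [← h1]
    exact Int.floor_nonneg.2 (hx i)
  have h1 : ∀ i, ((((x i + ⌊θ i⌋).toNat : ℕ) : ℝ)) + Int.fract (θ i) = (x i : ℝ) + θ i := by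
    intro i
    have h2 : (((x i + ⌊θ i⌋).toNat : ℕ) : ℤ) = x i + ⌊θ i⌋ := Int.toNat_of_nonneg (h0 i)
    have h3 : ((((x i + ⌊θ i⌋).toNat : ℕ) : ℝ)) = ((x i + ⌊θ i⌋ : ℤ) : ℝ) := by
      rw [← Int.cast_natCast, h2]
    rw [h3]
    push_cast
    have := Int.floor_add_fract (θ i)
    linarith
  have h2 := h (fun i => (x i + ⌊θ i⌋).toNat)
  simp only [h1] at h2
  exact h2

theorem t_LOW : Pool.Agent.W203.WS.S_LOW := by
  intro k s hk hs θ N₀
  obtain ⟨N, hN, h⟩ := core_int k s hk hs θ N₀.toNat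
  refine ⟨(N : ℤ), ?_, h⟩
  exact (Int.self_le_toNat N₀).trans (by exact_mod_cast hN)

end Pool.Agent.W768.WT
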